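import Mathlib
import Pool.Agent.TH5.BD.Lattice
import Pool.Agent.TH5.BD.Defs

set_option autoImplicit false
set_option linter.unusedSectionVars false

/-!
# An explicit bound for antichains of roots, reflections, and weights of reflections
-/

namespace Pool.Agent.Hp103.AF

open CoxeterSystem Pool.Agent.Helper703.Cox Pool.Agent.TH5.BD

variable {B : Type*} {M : CoxeterMatrix B} [Fintype B] [DecidableEq B]
variable {W : Type*} [Group W] {cs : CoxeterSystem M W}

/-- two incomparable inversions of `x` whose reflections agree modulo 3 are equal -/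
lemma no_pair {x : W} {β γ : B → ℝ} (hβ : β ∈ Inv cs x) (hγ : γ ∈ Inv cs x)
    (h12 : ¬ Dom cs β γ) (h21 : ¬ Dom cs γ β)
    (h : ∃ η ∈ Lam M, β = γ + (3 : ℝ) • η ∨ β = -γ + (3 : ℝ) • η) : False := by
  have h1 : -2 < bf M β γ := neg_two_lt hβ hγ
  by_cases h2 : 2 ≤ bf M β γ
  · rcases dom_of_two_le hβ.1 hγ.1 h2 with h3 | h3
    · exact h12 h3
    · exact h21 h3
  push Not at h2
  obtain ⟨c, hc⟩ := rot hβ.1 hγ.1
  obtain ⟨k, hk, hck⟩ := rot_finite hβ.1 hγ.1 h1 h2 hc
  have hc1 : c = 1 := by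
    obtain ⟨η, hη, h | h⟩ := h
    · exact eq_one_of_mod_three hk hck (rot_mod_three hβ.1 hγ.1 hη h hc)
    · refine eq_one_of_mod_three hk hck (rot_mod_three hβ.1 hγ.1.neg hη h (fun v => ?_))
      rw [hc v]
      simp only [map_neg, LinearMap.neg_apply, neg_smul_neg]
  have h3 := rot_right hγ.1 hc
  rw [hc1, map_one, Module.End.one_apply] at h3
  have h4 : (2 : ℝ) • γ = (bf M β γ) • β := by
    rw [two_smul]
    nth_rewrite 1 [h3]
    abel
  have h5 : bf M ((2 : ℝ) • γ) ((2 : ℝ) • γ) = bf M ((bf M β γ) • β) ((bf M β γ) • β) := by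
    rw [h4]
  simp only [map_smul, LinearMap.smul_apply, smul_eq_mul, hβ.1.bf_self, hγ.1.bf_self] at h5
  nlinarith

/-- a root is not divisible by 3 -/
lemma not_three {β : B → ℝ} (hβ : IsRoot cs β) {η : B → ℝ} (hη : η ∈ Lam M)
    (h : β = (3 : ℝ) • η) : False := by
  have h1 := hβ.bf_self
  rw [h] at h1
  simp only [map_smul, LinearMap.smul_apply, smul_eq_mul] at h1
  -- `9 b = 2` with `b` integral
  have hb : bf M η η ∈ OO M := bf_mem hη hη
  have hint : IsIntegral ℤ (bf M η η) := by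
    have : IsIntegral ℤ (⟨bf M η η, hb⟩ : OO M) := Algebra.IsIntegral.isIntegral _
    exact this.map (OO M).val
  have h2 : bf M η η = ((2 / 9 : ℚ) : ℝ) := by
    push_cast
    linarith
  rw [h2] at hint
  have h3 : IsIntegral ℤ (2 / 9 : ℚ) := by
    have := (isIntegral_algebraMap_iff (R := ℤ) (A := ℚ) (B := ℝ) (x := (2 / 9 : ℚ))
      (FaithfulSMul.algebraMap_injective ℚ ℝ)).1
    exact this hint
  obtain ⟨m, hm⟩ := (IsIntegrallyClosed.isIntegral_iff (R := ℤ) (K := ℚ)).1 h3
  have h4 : (m : ℚ) * 9 = 2 := by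
    have : (algebraMap ℤ ℚ m) = (m : ℚ) := rfl
    rw [this] at hm
    rw [hm]; norm_num
  have h5 : m * 9 = 2 := by exact_mod_cast h4
  omega

/-- the rank of `ℤ[2 cos (π / m(s,t))]` -/
noncomputable def deg (M : CoxeterMatrix B) : ℕ := Module.finrank ℤ (OO M)

/-- **Explicit bound for antichains of inversions.** -/
theorem anti_card {x : W} {F : Finset (B → ℝ)} (hF : ∀ β ∈ F, β ∈ Inv cs x) (hA : Anti cs F) :
    2 * F.card + 1 ≤ 3 ^ (Fintype.card B * deg M) := by
  classical
  set b := Module.Free.chooseBasis ℤ (OO M) with hbdef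
  set ι := Module.Free.ChooseBasisIndex ℤ (OO M) with hι
  -- the colour of a vector
  let col : (B → ℝ) → (B → ι → ZMod 3) := fun v j k =>
    if h : v j ∈ OO M then ((b.repr ⟨v j, h⟩ k : ℤ) : ZMod 3) else 0
  have hcol : ∀ u v : B → ℝ, u ∈ Lam M → v ∈ Lam M → col u = col v →
      ∃ η ∈ Lam M, u = v + (3 : ℝ) • η := by
    intro u v hu hv h
    have h1 : ∀ j, ∃ a ∈ OO M, u j = v j + 3 * a := by
      intro j
      have h2 : ∀ k, (3 : ℤ) ∣ b.repr ⟨u j, hu j⟩ k - b.repr ⟨v j, hv j⟩ k := by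
        intro k
        have h3 := congrFun (congrFun h j) k
        simp only [col, dif_pos (hu j), dif_pos (hv j)] at h3
        rw [← Int.modEq_iff_dvd]
        have := (ZMod.intCast_eq_intCast_iff _ _ 3).1 h3
        exact this.symm
      choose m hm using h2
      refine ⟨((∑ k, m k • b k : OO M) : ℝ), (∑ k, m k • b k : OO M).2, ?_⟩
      have h4 : (⟨u j, hu j⟩ : OO M) = ⟨v j, hv j⟩ + (3 : ℤ) • ∑ k, m k • b k := by
        apply b.repr.injective
        ext k
        rw [map_add, map_smul, Finsupp.add_apply, Finsupp.smul_apply, b.repr_sum_self,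
          smul_eq_mul, ← hm k]
        ring
      have h5 := congrArg Subtype.val h4
      simp only [Subalgebra.coe_add, SetLike.val_smul] at h5
      rw [h5]
      simp
    choose a ha hua using h1
    exact ⟨a, ha, by funext j; rw [hua j]; simp⟩
  have hneg : ∀ v : B → ℝ, v ∈ Lam M → col (-v) = -col v := by
    intro v hv
    funext j k
    have h1 : (-v) j ∈ OO M := (OO M).neg_mem (hv j)
    have h2 : (⟨(-v) j, h1⟩ : OO M) = -⟨v j, hv j⟩ := rfl
    change (if h : (-v) j ∈ OO M then ((b.repr ⟨(-v) j, h⟩ k : ℤ) : ZMod 3) else 0) =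
      -(if h : v j ∈ OO M then ((b.repr ⟨v j, h⟩ k : ℤ) : ZMod 3) else 0)
    rw [dif_pos h1, dif_pos (hv j), h2, map_neg, Finsupp.neg_apply]
    push_cast
    rfl
  have hzero : col 0 = 0 := by
    funext j k
    have h1 : (0 : B → ℝ) j ∈ OO M := (OO M).zero_mem
    have h2 : (⟨(0 : B → ℝ) j, h1⟩ : OO M) = 0 := rfl
    change (if h : (0 : B → ℝ) j ∈ OO M then ((b.repr ⟨(0 : B → ℝ) j, h⟩ k : ℤ) : ZMod 3)
      else 0) = 0
    rw [dif_pos h1, h2, map_zero]
    simp
  have hcard : Fintype.card (B → ι → ZMod 3) = 3 ^ (Fintype.card B * deg M) := by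
    rw [Fintype.card_fun, Fintype.card_fun, ZMod.card, ← pow_mul, mul_comm]
    congr 2
    unfold deg
    rw [Module.finrank_eq_card_chooseBasisIndex]
  have hinj : Set.InjOn col F := by
    intro β hβ γ hγ hbg
    by_contra hne
    obtain ⟨η, hη, h⟩ := hcol β γ (hF β hβ).1.mem (hF γ hγ).1.mem hbg
    exact no_pair (hF β hβ) (hF γ hγ) (hA β hβ γ hγ hne) (hA γ hγ β hβ (Ne.symm hne))
      ⟨η, hη, Or.inl h⟩
  set G := F.image col with hG
  have hGc : G.card = F.card := Finset.card_image_of_injOn hinj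
  have h0G : (0 : B → ι → ZMod 3) ∉ G := by
    intro h
    obtain ⟨β, hβ, h1⟩ := Finset.mem_image.1 h
    obtain ⟨η, hη, h2⟩ := hcol β 0 (hF β hβ).1.mem (Lam M).zero_mem (by rw [h1, hzero])
    rw [zero_add] at h2
    exact not_three (hF β hβ).1 hη h2
  have hdis : Disjoint G (G.image (fun c => -c)) := by
    rw [Finset.disjoint_left]
    intro c hc hc'
    obtain ⟨β, hβ, rfl⟩ := Finset.mem_image.1 hc
    obtain ⟨d, hd, hd'⟩ := Finset.mem_image.1 hc'
    obtain ⟨γ, hγ, rfl⟩ := Finset.mem_image.1 hd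
    have h1 : col β = col (-γ) := by
      rw [hneg γ (hF γ hγ).1.mem]; exact hd'.symm
    obtain ⟨η, hη, h2⟩ := hcol β (-γ) (hF β hβ).1.mem ((Lam M).neg_mem (hF γ hγ).1.mem) h1
    by_cases hne : β = γ
    · subst hne
      -- `2 β = 3 η`
      refine not_three (hF β hβ).1 (η := β - η) ((Lam M).sub_mem (hF β hβ).1.mem hη) ?_
      have h3 : (2 : ℝ) • β = (3 : ℝ) • η := by
        rw [two_smul]
        nth_rewrite 1 [h2]
        abel
      rw [smul_sub, ← h3]
      module
    · exact no_pair (hF β hβ) (hF γ hγ) (hA β hβ γ hγ hne) (hA γ hγ β hβ (Ne.symm hne))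
        ⟨η, hη, Or.inr h2⟩
  have h0G' : (0 : B → ι → ZMod 3) ∉ G ∪ G.image (fun c => -c) := by
    rw [Finset.mem_union, not_or]
    refine ⟨h0G, fun h => ?_⟩
    obtain ⟨d, hd, hd'⟩ := Finset.mem_image.1 h
    rw [neg_eq_zero] at hd'
    exact h0G (hd' ▸ hd)
  have h1 : (insert (0 : B → ι → ZMod 3) (G ∪ G.image (fun c => -c))).card = 2 * F.card + 1 := by
    rw [Finset.card_insert_of_notMem h0G', Finset.card_union_of_disjoint hdis,
      Finset.card_image_of_injective _ neg_injective, hGc]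
    ring
  rw [← h1, ← hcard]
  exact Finset.card_le_univ _

end Pool.Agent.Hp103.AF
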