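import Mathlib
import Pool.Agent.TH5.BD.Hecke
import Pool.Agent.TH5.BD.Switch

set_option autoImplicit false
set_option linter.unusedSectionVars false

/-!
# Weighted form of the switching lemma

The switching lemma of `TH5.BD.Switch` with weights: if `κ` is invariant under the simple
reflections, then an antichain `F` of common inversions of `x` and `y` becomes an antichain of
common inversions of `x` and `s y` whose weight is larger by `κ(α_s)`.  Hence the degree of the
structure constants of the Hecke algebra is at most the largest weight of an antichain.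
-/

namespace Pool.Agent.Hp103.AF

open CoxeterSystem Pool.Agent.Helper703.Cox Pool.Agent.TH5.BD

variable {B : Type*} {M : CoxeterMatrix B} [Fintype B] [DecidableEq B]
variable {W : Type*} [Group W] {cs : CoxeterSystem M W}

/-- **Weighted switching lemma.** -/
theorem switchW {x y : W} {i : B} (hx : geo cs x (ee i) ≤ 0) (hy : 0 ≤ geo cs y⁻¹ (ee i))
    {F : Finset (B → ℝ)} (hF : ∀ β ∈ F, β ∈ Nn cs x y) (hA : Anti cs F)
    {κ : (B → ℝ) → ℕ} (hκ : ∀ β, κ (sg M i β) = κ β) :
    ∃ F' : Finset (B → ℝ), (∀ β ∈ F', β ∈ Nn cs x (cs.simple i * y)) ∧ Anti cs F' ∧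
      ∑ β ∈ F', κ β = ∑ β ∈ F, κ β + κ (ee i) := by
  classical
  have hYs : ∀ v, geo cs (cs.simple i * y)⁻¹ v = geo cs y⁻¹ (sg M i v) := by
    intro v
    rw [mul_inv_rev, cs.inv_simple, map_mul, Module.End.mul_apply, geo_simple]
  have hya : ¬ geo cs y⁻¹ (ee i) ≤ 0 := ((isRoot_ee i).geo _).not_nonpos hy
  have hneF : ∀ β ∈ F, β ≠ ee i := by
    rintro β hβ rfl
    exact hya (hF _ hβ).2.2.2
  -- the switched roots
  have hroot : ∀ β ∈ F, IsRoot cs (sigma cs F i β) ∧ 0 ≤ sigma cs F i β := by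
    intro β hβ
    have hb := hF β hβ
    unfold sigma
    split_ifs
    · exact ⟨hb.1.sg i, hb.1.simple_pos hb.2.1 (hneF β hβ)⟩
    · exact ⟨hb.1, hb.2.1⟩
  have hmem : ∀ β ∈ F, sigma cs F i β ∈ Nn cs x (cs.simple i * y) := by
    intro β hβ
    refine ⟨(hroot β hβ).1, (hroot β hβ).2, ?_⟩
    rw [hYs]
    obtain ⟨hr, h0, hX, hY⟩ := hF β hβ
    unfold sigma
    split_ifs with hs
    · rw [sg_sg]
      refine ⟨?_, hY⟩
      rcases hs with hs | hs
      · rw [sg_apply, map_sub, map_smul]
        intro j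
        have h4 := hX j
        have h5 := hx j
        have h6 := hs.1
        simp only [Pi.sub_apply, Pi.smul_apply, smul_eq_mul, Pi.zero_apply] at h4 h5 ⊢
        nlinarith
      · obtain ⟨_, m, hm, _, hmd, _⟩ := hs
        exact hmd.sg' x (hF m hm).2.2.1
    · refine ⟨hX, ?_⟩
      rcases lt_trichotomy (coroot M i β) 0 with hb | hb | hb
      · have hU : ∃ p ∈ F, 0 < coroot M i p ∧ Dom cs p (sg M i β) := by
          by_contra hc
          exact hs (Or.inl ⟨hb, hc⟩)
        obtain ⟨p, hp, _, hpd⟩ := hU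
        exact hpd _ (hF p hp).2.2.2
      · rwa [sg_of_coroot_eq_zero hb]
      · rw [sg_apply, map_sub, map_smul]
        intro j
        have h4 := hY j
        have h5 := hy j
        simp only [Pi.sub_apply, Pi.smul_apply, smul_eq_mul, Pi.zero_apply] at h4 h5 ⊢
        nlinarith
  have hsne : ∀ β ∈ F, sigma cs F i β ≠ ee i := by
    intro β hβ h
    unfold sigma at h
    split_ifs at h
    · have h1 : β = - ee i := by
        rw [← sg_sg M i β, h, sg_ee_self]
      have h2 := (hF β hβ).2.1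
      rw [h1] at h2
      exact ((isRoot_ee (cs := cs) i)).not_nonpos (ee_nonneg i) (neg_nonneg.1 h2)
    · exact hneF β hβ h
  have hinj : Set.InjOn (sigma cs F i) F := by
    intro β hβ γ hγ h
    by_contra hne
    apply sigma_anti hA hβ hγ hne
    rw [h]
    exact Dom.refl _
  have hnm : ee i ∉ F.image (sigma cs F i) := by
    intro h
    obtain ⟨β, hβ, h1⟩ := Finset.mem_image.1 h
    exact hsne β hβ h1
  refine ⟨insert (ee i) (F.image (sigma cs F i)), ?_, ?_, ?_⟩
  · intro β hβ
    rcases Finset.mem_insert.1 hβ with rfl | hβ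
    · refine ⟨isRoot_ee i, ee_nonneg i, hx, ?_⟩
      rw [hYs, sg_ee_self, map_neg]
      exact neg_nonpos.2 hy
    · obtain ⟨γ, hγ, rfl⟩ := Finset.mem_image.1 hβ
      exact hmem γ hγ
  · -- antichain
    have h1 : ∀ β ∈ F, ¬ Dom cs (ee i) (sigma cs F i β) := by
      intro β hβ hd
      have h2 := hd (cs.simple i)
      rw [geo_simple, sg_ee_self] at h2
      have h3 := h2 (neg_nonpos.2 (ee_nonneg i))
      exact ((hroot β hβ).1.sg i).not_nonpos ((hroot β hβ).1.simple_pos (hroot β hβ).2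
        (hsne β hβ)) h3
    have h2 : ∀ β ∈ F, ¬ Dom cs (sigma cs F i β) (ee i) := by
      intro β hβ hd
      unfold sigma at hd
      split_ifs at hd
      · have h3 := hd.sg' x (hF β hβ).2.2.1
        rw [sg_ee_self, map_neg] at h3
        exact ((isRoot_ee i).geo x).not_nonpos (neg_nonpos.1 h3) hx
      · exact hya (hd _ (hF β hβ).2.2.2)
    intro β hβ γ hγ hne
    rcases Finset.mem_insert.1 hβ with rfl | hβ
    · rcases Finset.mem_insert.1 hγ with rfl | hγ
      · exact absurd rfl hne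
      · obtain ⟨γ', hγ', rfl⟩ := Finset.mem_image.1 hγ
        exact h1 γ' hγ'
    · obtain ⟨β', hβ', rfl⟩ := Finset.mem_image.1 hβ
      rcases Finset.mem_insert.1 hγ with rfl | hγ
      · exact h2 β' hβ'
      · obtain ⟨γ', hγ', rfl⟩ := Finset.mem_image.1 hγ
        apply sigma_anti hA hβ' hγ'
        rintro rfl
        exact hne rfl
  · rw [Finset.sum_insert hnm, Finset.sum_image hinj, add_comm]
    congr 1
    refine Finset.sum_congr rfl fun β _ => ?_
    unfold sigma
    split_ifs
    · exact hκ β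
    · rfl

/-- shifting a letter does not change the largest weight of an antichain -/
theorem shiftW {x y : W} {i : B} (hy : 0 ≤ geo cs y⁻¹ (ee i))
    {F : Finset (B → ℝ)} (hF : ∀ β ∈ F, β ∈ Nn cs (x * cs.simple i) y) (hA : Anti cs F)
    {κ : (B → ℝ) → ℕ} (hκ : ∀ β, κ (sg M i β) = κ β) :
    ∃ F' : Finset (B → ℝ), (∀ β ∈ F', β ∈ Nn cs x (cs.simple i * y)) ∧ Anti cs F' ∧
      ∑ β ∈ F', κ β = ∑ β ∈ F, κ β := by
  classical
  have hinj : Function.Injective (sg M i) := fun u v h => by
    rw [← sg_sg M i u, h, sg_sg]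
  have hya : ¬ geo cs y⁻¹ (ee i) ≤ 0 := ((isRoot_ee i).geo _).not_nonpos hy
  refine ⟨F.image (sg M i), ?_, ?_, ?_⟩
  · intro β hβ
    obtain ⟨γ, hγ, rfl⟩ := Finset.mem_image.1 hβ
    obtain ⟨h1, h2, h3, h4⟩ := hF γ hγ
    refine ⟨h1.sg i, h1.simple_pos h2 ?_, ?_, ?_⟩
    · rintro rfl; exact hya h4
    · rw [map_mul, Module.End.mul_apply, geo_simple] at h3
      exact h3
    · rw [mul_inv_rev, cs.inv_simple, map_mul, Module.End.mul_apply, geo_simple, sg_sg]
      exact h4
  · intro β hβ γ hγ hne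
    obtain ⟨β', hβ', rfl⟩ := Finset.mem_image.1 hβ
    obtain ⟨γ', hγ', rfl⟩ := Finset.mem_image.1 hγ
    intro hd
    have := hd.sg i
    rw [sg_sg, sg_sg] at this
    exact hA β' hβ' γ' hγ' (fun h => hne (by rw [h])) this
  · rw [Finset.sum_image hinj.injOn]
    exact Finset.sum_congr rfl fun β _ => hκ β

variable {L : W → ℕ} {f : W → W → W → LaurentPolynomial ℤ}

/-- **Degree and weighted antichains.** -/
theorem dgW (h : IsSC cs L f) {κ : (B → ℝ) → ℕ} (hκ : ∀ i β, κ (sg M i β) = κ β)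
    (hκL : ∀ i, L (cs.simple i) ≤ κ (ee i)) :
    ∀ (n : ℕ) (x y : W) (k : ℕ), cs.length y = n →
      (∀ F : Finset (B → ℝ), (∀ β ∈ F, β ∈ Nn cs x y) → Anti cs F → ∑ β ∈ F, κ β ≤ k) →
      ∀ z, Dg (f x y z) (k : ℤ) := by
  classical
  intro n
  induction n with
  | zero =>
    intro x y k hy _ z
    have hy1 : y = 1 := cs.length_eq_zero_iff.1 hy
    subst hy1
    by_cases hz : x = z
    · rw [(h.right_one _ x rfl z).1 hz]
      exact dg_one (by positivity)
    · rw [(h.right_one _ x rfl z).2 hz]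
      exact dg_zero _
  | succ n ih =>
    intro x y k hy hF z
    have hy1 : y ≠ 1 := by
      rintro rfl
      rw [cs.length_one] at hy
      omega
    obtain ⟨i, hi⟩ := cs.exists_leftDescent_of_ne_one hy1
    have hi' : cs.length (cs.simple i * y) + 1 = cs.length y := cs.isLeftDescent_iff.mp hi
    obtain ⟨y', hy'⟩ : ∃ y', y' = cs.simple i * y := ⟨_, rfl⟩
    rw [← hy'] at hi'
    have hyy : y = cs.simple i * y' := by rw [hy', cs.simple_mul_simple_cancel_left]
    have h6 : cs.length y' < cs.length (cs.simple i * y') := by rw [← hyy]; omega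
    have hpos : 0 ≤ geo cs y'⁻¹ (ee i) := by
      apply geo_nonneg
      have e : y'⁻¹ * cs.simple i = (cs.simple i * y')⁻¹ := by rw [mul_inv_rev, cs.inv_simple]
      rw [e, cs.length_inv, cs.length_inv]
      exact h6
    rw [hyy] at hF ⊢
    -- bound for the pair `(x s, y')`
    have hb : ∀ F : Finset (B → ℝ), (∀ β ∈ F, β ∈ Nn cs (x * cs.simple i) y') → Anti cs F →
        ∑ β ∈ F, κ β ≤ k := by
      intro F hF1 hF2
      obtain ⟨F', h1, h2, h3⟩ := shiftW hpos hF1 hF2 (hκ i)
      rw [← h3]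
      exact hF F' h1 h2
    rcases cs.length_mul_simple x i with hx | hx
    · rw [h.R1 h6 _ x rfl (by omega)]
      exact ih _ _ k (by omega) hb z
    · have hx2 : x = x * cs.simple i * cs.simple i := by rw [cs.simple_mul_simple_cancel_right]
      have hxneg : geo cs x (ee i) ≤ 0 := geo_nonpos cs x i (by omega)
      -- bound for the pair `(x, y')`
      have hk : κ (ee i) ≤ k := by
        obtain ⟨F', h1, h2, h3⟩ := switchW (F := ∅) hxneg hpos (by simp) (by
          intro β hβ; simp at hβ) (hκ i)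
        have := hF F' h1 h2
        rw [h3, Finset.sum_empty, zero_add] at this
        exact this
      obtain ⟨k', rfl⟩ : ∃ k', k = k' + κ (ee i) := ⟨k - κ (ee i), by omega⟩
      have hb' : ∀ F : Finset (B → ℝ), (∀ β ∈ F, β ∈ Nn cs x y') → Anti cs F →
          ∑ β ∈ F, κ β ≤ k' := by
        intro F hF1 hF2
        obtain ⟨F', h1, h2, h3⟩ := switchW hxneg hpos hF1 hF2 (hκ i)
        have := hF F' h1 h2
        omega
      have e := h.R2 h6 _ (x * cs.simple i) rfl (by
        rw [cs.simple_mul_simple_cancel_right]; omega) z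
      rw [← hx2] at e
      rw [e]
      apply Dg.add
      · exact ih _ _ _ (by omega) hb z
      · have h7 := (ih x y' k' (by omega) hb' z).xi_mul (L (cs.simple i))
        apply h7.mono
        have := hκL i
        push_cast
        have h8 : (L (cs.simple i) : ℤ) ≤ (κ (ee i) : ℤ) := by exact_mod_cast this
        linarith

/-- There is an antichain of common inversions whose weight bounds the degree. -/
theorem exists_anti (h : IsSC cs L f) {κ : (B → ℝ) → ℕ} (hκ : ∀ i β, κ (sg M i β) = κ β)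
    (hκL : ∀ i, L (cs.simple i) ≤ κ (ee i)) (x y z : W) :
    ∃ F : Finset (B → ℝ), (∀ β ∈ F, β ∈ Nn cs x y) ∧ Anti cs F ∧
      Dg (f x y z) ((∑ β ∈ F, κ β : ℕ) : ℤ) := by
  classical
  have hfin : (Nn cs x y).Finite := (inv_finite (cs := cs) x).subset
    (fun β hβ => ⟨hβ.1, hβ.2.1, hβ.2.2.1⟩)
  set U : Finset (Finset (B → ℝ)) := hfin.toFinset.powerset.filter (fun F => Anti cs F) with hU
  have hne : U.Nonempty := ⟨∅, Finset.mem_filter.2 ⟨Finset.empty_mem_powerset _, by
    intro β hβ; simp at hβ⟩⟩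
  obtain ⟨F, hF, hmax⟩ := U.exists_max_image (fun F => ∑ β ∈ F, κ β) hne
  have hmemU : ∀ G : Finset (B → ℝ), G ∈ U ↔ (∀ β ∈ G, β ∈ Nn cs x y) ∧ Anti cs G := by
    intro G
    rw [hU, Finset.mem_filter, Finset.mem_powerset]
    constructor
    · rintro ⟨h1, h2⟩
      exact ⟨fun β hβ => hfin.mem_toFinset.1 (h1 hβ), h2⟩
    · rintro ⟨h1, h2⟩
      exact ⟨fun β hβ => hfin.mem_toFinset.2 (h1 β hβ), h2⟩
  refine ⟨F, ((hmemU F).1 hF).1, ((hmemU F).1 hF).2, ?_⟩
  exact dgW h hκ hκL _ x y _ rfl (fun G hG hA => hmax G ((hmemU G).2 ⟨hG, hA⟩)) z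

end Pool.Agent.Hp103.AF
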