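import Mathlib
import Pool.Agent.TH5.BD.ReduceDefs
import Pool.Agent.Hp103.AF.Sw
import Pool.Agent.Hp103.AF.Bd

set_option autoImplicit false
set_option linter.unusedSectionVars false

/-!
# Reflections and roots, weights of reflections
-/

namespace Pool.Agent.Hp103.AF

open CoxeterSystem Pool.Agent.Helper703.Cox Pool.Agent.TH5.BD

section weight

variable {B : Type*} {M : CoxeterMatrix B} {W : Type*} [Group W] {cs : CoxeterSystem M W}

/-- a weight function takes the same value on conjugate simple reflections -/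
lemma weight_conj {L : W → ℤ} (hL : IsWeight cs L) {u : W} {i j : B}
    (h : u * cs.simple i = cs.simple j * u) : L (cs.simple i) = L (cs.simple j) := by
  have key : ∀ u : W, u * cs.simple i = cs.simple j * u →
      cs.length (u * cs.simple i) = cs.length u + 1 → L (cs.simple i) = L (cs.simple j) := by
    intro u h h1
    have h2 := hL.add u (cs.simple i) (by rw [h1, cs.length_simple])
    have h3 := hL.add (cs.simple j) u (by rw [← h, h1, cs.length_simple, add_comm])
    rw [h] at h2
    linarith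
  rcases cs.length_mul_simple u i with h1 | h1
  · exact key u h h1
  · refine key (u * cs.simple i) ?_ ?_
    · rw [cs.simple_mul_simple_cancel_right, h, cs.simple_mul_simple_cancel_left]
    · rw [cs.simple_mul_simple_cancel_right]
      exact h1.symm

variable (cs) in
open Classical in
/-- the weight of a reflection: the value of `L` at a conjugate simple reflection -/
noncomputable def lam' (L : W → ℤ) (t : W) : ℤ :=
  if h : ∃ i, ∃ w : W, t = w * cs.simple i * w⁻¹ then L (cs.simple h.choose) else 0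

lemma lam'_conj {L : W → ℤ} (hL : IsWeight cs L) (w : W) (i : B) :
    lam' cs L (w * cs.simple i * w⁻¹) = L (cs.simple i) := by
  have h : ∃ j, ∃ v : W, w * cs.simple i * w⁻¹ = v * cs.simple j * v⁻¹ := ⟨i, w, rfl⟩
  unfold lam'
  rw [dif_pos h]
  obtain ⟨v, hv⟩ := h.choose_spec
  symm
  apply weight_conj hL (u := v⁻¹ * w)
  have h2 : v⁻¹ * (w * cs.simple i * w⁻¹) * w = v⁻¹ * (v * cs.simple h.choose * v⁻¹) * w := by
    rw [← hv]
  calc v⁻¹ * w * cs.simple i = v⁻¹ * (w * cs.simple i * w⁻¹) * w := by group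
    _ = v⁻¹ * (v * cs.simple h.choose * v⁻¹) * w := h2
    _ = cs.simple h.choose * (v⁻¹ * w) := by group

end weight

variable {B : Type*} {M : CoxeterMatrix B} [Fintype B] [DecidableEq B]
variable {W : Type*} [Group W] {cs : CoxeterSystem M W}

variable (cs) in
open Classical in
/-- the reflection in a root -/
noncomputable def rf (β : B → ℝ) : W :=
  if h : IsRoot cs β then Classical.choose h.reflection else 1

lemma geo_rf {β : B → ℝ} (h : IsRoot cs β) (v : B → ℝ) :
    geo cs (rf cs β) v = v - bf M β v • β := by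
  unfold rf
  rw [dif_pos h]
  exact Classical.choose_spec h.reflection v

lemma rf_eq {β : B → ℝ} (h : IsRoot cs β) {t : W} (ht : ∀ v, geo cs t v = v - bf M β v • β) :
    rf cs β = t := by
  apply geo_injective cs
  apply LinearMap.ext
  intro v
  rw [geo_rf h, ht]

lemma rf_geo (w : W) (i : B) : rf cs (geo cs w (ee i)) = w * cs.simple i * w⁻¹ := by
  refine rf_eq ⟨w, i, rfl⟩ (fun v => ?_)
  have h1 : bf M (geo cs w (ee i)) v = bf M (ee i) (geo cs w⁻¹ v) := by
    conv_lhs => rw [← geo_apply_inv cs w v]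
    rw [bf_geo]
  rw [map_mul, map_mul, Module.End.mul_apply, Module.End.mul_apply, geo_simple, sg_apply, map_sub,
    geo_apply_inv, map_smul, h1, bf_ee]

lemma rf_isReflection {β : B → ℝ} (h : IsRoot cs β) : cs.IsReflection (rf cs β) := by
  obtain ⟨w, i, rfl⟩ := h
  exact ⟨w, i, rf_geo w i⟩

lemma rf_sg {β : B → ℝ} (h : IsRoot cs β) (i : B) :
    rf cs (sg M i β) = cs.simple i * rf cs β * cs.simple i := by
  obtain ⟨w, j, rfl⟩ := h
  have h1 : sg M i (geo cs w (ee j)) = geo cs (cs.simple i * w) (ee j) := by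
    rw [map_mul, Module.End.mul_apply, geo_simple]
  rw [h1, rf_geo, rf_geo, mul_inv_rev, cs.inv_simple]
  group

lemma rf_mul_rf {β : B → ℝ} (h : IsRoot cs β) : rf cs β * rf cs β = 1 := by
  obtain ⟨w, i, rfl⟩ := h
  rw [rf_geo]
  calc w * cs.simple i * w⁻¹ * (w * cs.simple i * w⁻¹)
      = w * (cs.simple i * cs.simple i) * w⁻¹ := by group
    _ = 1 := by rw [cs.simple_mul_simple_self]; group

lemma rf_inj {β γ : B → ℝ} (hβ : IsRoot cs β) (hγ : IsRoot cs γ) (h0 : 0 ≤ β) (h0' : 0 ≤ γ)
    (h : rf cs β = rf cs γ) : β = γ := by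
  have h1 : β - bf M β β • β = β - bf M γ β • γ := by
    rw [← geo_rf hβ, ← geo_rf hγ, h]
  rw [hβ.bf_self] at h1
  have h2 : (2 : ℝ) • β = bf M γ β • γ := by
    have := congrArg (fun u => β - u) h1
    simpa using this
  have h3 : bf M ((2 : ℝ) • β) ((2 : ℝ) • β) = bf M (bf M γ β • γ) (bf M γ β • γ) := by rw [h2]
  simp only [map_smul, LinearMap.smul_apply, smul_eq_mul, hβ.bf_self, hγ.bf_self] at h3
  have h4 : bf M γ β = 2 ∨ bf M γ β = -2 := by
    have : (bf M γ β - 2) * (bf M γ β + 2) = 0 := by nlinarith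
    rcases mul_eq_zero.1 this with h | h
    · left; linarith
    · right; linarith
  rcases h4 with h4 | h4
  · rw [h4] at h2
    exact smul_right_injective _ (two_ne_zero' ℝ) h2
  · exfalso
    rw [h4] at h2
    have h5 : β = -γ := by
      have : (2 : ℝ) • β = (2 : ℝ) • (-γ) := by rw [h2]; module
      exact smul_right_injective _ (two_ne_zero' ℝ) this
    rw [h5] at h0
    exact hγ.not_nonpos h0' (neg_nonneg.1 h0)

lemma len_of_neg : ∀ (n : ℕ) (x : W) (β : B → ℝ), cs.length x = n → IsRoot cs β → 0 ≤ β →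
    geo cs x β ≤ 0 → cs.length (x * rf cs β) < cs.length x := by
  intro n
  induction n with
  | zero =>
    intro x β hx hβ h0 hneg
    have hx1 : x = 1 := cs.length_eq_zero_iff.1 hx
    subst hx1
    rw [map_one, Module.End.one_apply] at hneg
    exact absurd hneg (hβ.not_nonpos h0)
  | succ n ih =>
    intro x β hx hβ h0 hneg
    have hx1 : x ≠ 1 := by
      rintro rfl
      rw [cs.length_one] at hx
      omega
    obtain ⟨i, hi⟩ := cs.exists_rightDescent_of_ne_one hx1
    have hi' : cs.length (x * cs.simple i) + 1 = cs.length x := cs.isRightDescent_iff.mp hi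
    by_cases hb : β = ee i
    · subst hb
      have h1 : rf cs (ee i) = cs.simple i := by
        have := rf_geo (cs := cs) 1 i
        simpa using this
      rw [h1]
      omega
    · have h2 := ih (x * cs.simple i) (sg M i β) (by omega) (hβ.sg i) (hβ.simple_pos h0 hb) (by
        rw [map_mul, Module.End.mul_apply, geo_simple, sg_sg]
        exact hneg)
      have h3 : x * cs.simple i * rf cs (sg M i β) = x * rf cs β * cs.simple i := by
        rw [rf_sg hβ]
        calc x * cs.simple i * (cs.simple i * rf cs β * cs.simple i)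
            = x * (cs.simple i * cs.simple i) * rf cs β * cs.simple i := by group
          _ = _ := by rw [cs.simple_mul_simple_self, mul_one]
      rw [h3] at h2
      rcases cs.length_mul_simple (x * rf cs β) i with h4 | h4 <;> omega

lemma rightInv_iff {x : W} {β : B → ℝ} (hβ : IsRoot cs β) (h0 : 0 ≤ β) :
    cs.IsRightInversion x (rf cs β) ↔ geo cs x β ≤ 0 := by
  constructor
  · rintro ⟨-, h⟩
    by_contra hc
    have h1 : 0 ≤ geo cs x β := (hβ.geo x).nonneg_of_not hc
    have h2 : geo cs (x * rf cs β) β ≤ 0 := by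
      rw [map_mul, Module.End.mul_apply, geo_rf hβ, hβ.bf_self]
      have : β - (2 : ℝ) • β = -β := by module
      rw [this, map_neg]
      exact neg_nonpos.2 h1
    have h3 := len_of_neg _ (x * rf cs β) β rfl hβ h0 h2
    rw [mul_assoc, rf_mul_rf hβ, mul_one] at h3
    omega
  · intro h
    exact ⟨rf_isReflection hβ, len_of_neg _ x β rfl hβ h0 h⟩

variable (cs) in
open Classical in
/-- the weight of a root -/
noncomputable def kap (L : W → ℤ) (β : B → ℝ) : ℕ :=
  if IsRoot cs β then (lam' cs L (rf cs β)).toNat else 0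

lemma kap_sg {L : W → ℤ} (hL : IsWeight cs L) (i : B) (β : B → ℝ) :
    kap cs L (sg M i β) = kap cs L β := by
  unfold kap
  by_cases h : IsRoot cs β
  · rw [if_pos h, if_pos (h.sg i)]
    obtain ⟨w, j, rfl⟩ := h
    have h1 : sg M i (geo cs w (ee j)) = geo cs (cs.simple i * w) (ee j) := by
      rw [map_mul, Module.End.mul_apply, geo_simple]
    rw [h1, rf_geo, rf_geo, lam'_conj hL, lam'_conj hL]
  · have h' : ¬ IsRoot cs (sg M i β) := fun hc => h (by
      have := hc.sg i
      rwa [sg_sg] at this)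
    rw [if_neg h, if_neg h']

lemma kap_ee {L : W → ℤ} (hL : IsWeight cs L) (i : B) :
    kap cs L (ee i) = (L (cs.simple i)).toNat := by
  unfold kap
  rw [if_pos (isRoot_ee i)]
  have h1 := rf_geo (cs := cs) 1 i
  rw [map_one, Module.End.one_apply] at h1
  rw [h1, lam'_conj hL]

lemma kap_root {L : W → ℤ} (hL : IsWeight cs L) {β : B → ℝ} (h : IsRoot cs β) :
    ((kap cs L β : ℕ) : ℤ) = lam' cs L (rf cs β) := by
  unfold kap
  rw [if_pos h]
  obtain ⟨w, i, rfl⟩ := h
  rw [rf_geo, lam'_conj hL, Int.toNat_of_nonneg (hL.pos i).le]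

/-- The degree is bounded by the weight of a set of pairwise incomparable common inversions. -/
theorem exists_refl {L : W → ℤ} (hL : IsWeight cs L) {f : W → W → W → LaurentPolynomial ℤ}
    (h : IsSC cs (fun w => (L w).toNat) f) (x y z : W) :
    ∃ F : Finset W, (∀ t ∈ F, cs.IsRightInversion x t ∧ cs.IsLeftInversion y t) ∧
      (∀ t ∈ F, ∀ t' ∈ F, t ≠ t' → ∃ w, cs.IsRightInversion w t ∧ ¬ cs.IsRightInversion w t') ∧
      2 * F.card + 1 ≤ 3 ^ (Fintype.card B * deg M) ∧
      Dg (f x y z) (∑ t ∈ F, lam' cs L t) := by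
  classical
  obtain ⟨F, hF, hA, hd⟩ := exists_anti h (κ := kap cs L) (fun i β => kap_sg hL i β)
    (fun i => (kap_ee hL i).ge) x y z
  have hinj : Set.InjOn (rf cs) F := fun β hβ γ hγ hbg =>
    rf_inj (hF β hβ).1 (hF γ hγ).1 (hF β hβ).2.1 (hF γ hγ).2.1 hbg
  refine ⟨F.image (rf cs), ?_, ?_, ?_, ?_⟩
  · intro t ht
    obtain ⟨β, hβ, rfl⟩ := Finset.mem_image.1 ht
    obtain ⟨h1, h2, h3, h4⟩ := hF β hβ
    refine ⟨(rightInv_iff h1 h2).2 h3, ?_⟩
    rw [← cs.isRightInversion_inv_iff]
    exact (rightInv_iff h1 h2).2 h4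
  · intro t ht t' ht' hne
    obtain ⟨β, hβ, rfl⟩ := Finset.mem_image.1 ht
    obtain ⟨γ, hγ, rfl⟩ := Finset.mem_image.1 ht'
    have hbg : β ≠ γ := fun hc => hne (by rw [hc])
    have h1 := hA β hβ γ hγ hbg
    unfold Dom at h1
    push Not at h1
    obtain ⟨w, hw, hw'⟩ := h1
    exact ⟨w, (rightInv_iff (hF β hβ).1 (hF β hβ).2.1).2 hw,
      fun hc => hw' ((rightInv_iff (hF γ hγ).1 (hF γ hγ).2.1).1 hc)⟩
  · rw [Finset.card_image_of_injOn hinj]
    exact anti_card (x := x) (fun β hβ => ⟨(hF β hβ).1, (hF β hβ).2.1, (hF β hβ).2.2.1⟩) hA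
  · rw [Finset.sum_image hinj]
    have h1 : ∑ β ∈ F, lam' cs L (rf cs β) = ((∑ β ∈ F, kap cs L β : ℕ) : ℤ) := by
      push_cast
      exact Finset.sum_congr rfl fun β hβ => (kap_root hL (hF β hβ).1).symm
    rw [h1]
    exact hd

end Pool.Agent.Hp103.AF
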